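import Pool.Agent.Lib.H71T.Hex

/-!
# H71T: the bridge lemma
-/

set_option autoImplicit false

namespace Pool.Agent.H71T

open Finset Pool.Agent.H79S

variable {V ι : Type} [Fintype V] [DecidableEq V] [Fintype ι] [DecidableEq ι] {al : ℕ}

/-- **Bridge lemma.** If `X` separates the two vertices of `S i`, `S j` on every clique on which
they are different, except on one clique `K l`, then `S i ∩ S j` is contained in `S l`. -/
theorem bridge (P : PSys V ι al 3) {i j l : ι} (hij : i ≠ j) (hli : l ≠ i) (hlj : l ≠ j)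
    (X : Finset V)
    (hX : ∀ m x y, m ≠ i → m ≠ j → m ≠ l → x ∈ P.K m → x ∈ P.S i → y ∈ P.K m → y ∈ P.S j →
      x = y ∨ (x ∈ X ∧ y ∉ X) ∨ (x ∉ X ∧ y ∈ X))
    {p q : V} (hp : p ∈ P.K l) (hpi : p ∈ P.S i) (hq : q ∈ P.K l) (hqj : q ∈ P.S j) (hpq : p ≠ q)
    (hpX : p ∈ X) (hqX : q ∈ X) :
    ∀ v, v ∈ P.S i → v ∈ P.S j → v ∈ P.S l := by
  classical
  obtain ⟨B, hB⟩ : ∃ B : Finset V, ∀ x, x ∈ B ↔ (x ∈ P.S i ∧ x ∈ P.S j) ∨
      (x ∈ P.S i ∧ x ∉ P.S j ∧ x ∉ X) ∨ (x ∈ P.S j ∧ x ∉ P.S i ∧ x ∉ X) :=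
    ⟨univ.filter (fun x => (x ∈ P.S i ∧ x ∈ P.S j) ∨
      (x ∈ P.S i ∧ x ∉ P.S j ∧ x ∉ X) ∨ (x ∈ P.S j ∧ x ∉ P.S i ∧ x ∉ X)), fun x => by simp⟩
  obtain ⟨y, hyK, hyS⟩ := P.meet hij
  obtain ⟨x, hxK, hxS⟩ := P.meet (Ne.symm hij)
  have hyi : y ∉ P.S i := P.notS hyK
  have hxj : x ∉ P.S j := P.notS hxK
  have hKi : ((P.K i ∩ B).card : ℤ) = 1 + (if y ∈ X then -1 else 0) := by
    by_cases hy : y ∈ X
    · rw [if_pos hy, card_zero_of]
      · norm_num
      · intro z hz hzB
        rcases (hB z).1 hzB with h | h | h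
        · exact absurd h.1 (P.notS hz)
        · exact absurd h.1 (P.notS hz)
        · rw [P.eqv hz h.1 hyK hyS] at h
          exact h.2.2 hy
    · rw [if_neg hy, card_one_of hyK ((hB y).2 (Or.inr (Or.inr ⟨hyS, hyi, hy⟩)))]
      · norm_num
      · intro z hz hzB
        rcases (hB z).1 hzB with h | h | h
        · exact absurd h.1 (P.notS hz)
        · exact absurd h.1 (P.notS hz)
        · exact P.eqv hz h.1 hyK hyS
  have hKj : ((P.K j ∩ B).card : ℤ) = 1 + (if x ∈ X then -1 else 0) := by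
    by_cases hx : x ∈ X
    · rw [if_pos hx, card_zero_of]
      · norm_num
      · intro z hz hzB
        rcases (hB z).1 hzB with h | h | h
        · exact absurd h.2 (P.notS hz)
        · rw [P.eqv hz h.1 hxK hxS] at h
          exact h.2.2 hx
        · exact absurd h.1 (P.notS hz)
    · rw [if_neg hx, card_one_of hxK ((hB x).2 (Or.inr (Or.inl ⟨hxS, hxj, hx⟩)))]
      · norm_num
      · intro z hz hzB
        rcases (hB z).1 hzB with h | h | h
        · exact absurd h.2 (P.notS hz)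
        · exact P.eqv hz h.1 hxK hxS
        · exact absurd h.1 (P.notS hz)
  have hKl : ((P.K l ∩ B).card : ℤ) = 0 := by
    rw [card_zero_of]
    · norm_num
    · intro z hz hzB
      rcases (hB z).1 hzB with h | h | h
      · exact hpq ((P.eqv hp hpi hz h.1).trans (P.eqv hz h.2 hq hqj))
      · rw [P.eqv hz h.1 hp hpi] at h
        exact h.2.2 hpX
      · rw [P.eqv hz h.1 hq hqj] at h
        exact h.2.2 hqX
  have hK : ∀ m, m ≠ i → m ≠ j → m ≠ l → ((P.K m ∩ B).card : ℤ) = 1 := by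
    intro m hmi hmj hml
    obtain ⟨s, hsK, hsS⟩ := P.meet hmi
    obtain ⟨t, htK, htS⟩ := P.meet hmj
    by_cases hst : s = t
    · subst hst
      rw [card_one_of hsK ((hB s).2 (Or.inl ⟨hsS, htS⟩))]
      · norm_num
      · intro z hz hzB
        rcases (hB z).1 hzB with h | h | h
        · exact P.eqv hz h.1 hsK hsS
        · exact P.eqv hz h.1 hsK hsS
        · exact P.eqv hz h.1 htK htS
    · have hsj : s ∉ P.S j := fun h => hst (P.eqv hsK h htK htS)
      have hti : t ∉ P.S i := fun h => hst (P.eqv hsK hsS htK h)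
      rcases hX m s t hmi hmj hml hsK hsS htK htS with h0 | ⟨h0, h0'⟩ | ⟨h0, h0'⟩
      · exact absurd h0 hst
      · rw [card_one_of htK ((hB t).2 (Or.inr (Or.inr ⟨htS, hti, h0'⟩)))]
        · norm_num
        · intro z hz hzB
          rcases (hB z).1 hzB with h | h | h
          · exact P.eqv hz h.2 htK htS
          · exact absurd (P.eqv hz h.1 hsK hsS ▸ h.2.2) (fun h' => h' h0)
          · exact P.eqv hz h.1 htK htS
      · rw [card_one_of hsK ((hB s).2 (Or.inr (Or.inl ⟨hsS, hsj, h0⟩)))]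
        · norm_num
        · intro z hz hzB
          rcases (hB z).1 hzB with h | h | h
          · exact P.eqv hz h.1 hsK hsS
          · exact P.eqv hz h.1 hsK hsS
          · exact absurd (P.eqv hz h.1 htK htS ▸ h.2.2) (fun h' => h' h0')
  obtain ⟨h1, h2⟩ := P.recon B (fun m => (if m = i then (if y ∈ X then (-1 : ℤ) else 0) else 0) +
      (if m = j then (if x ∈ X then (-1 : ℤ) else 0) else 0) + (if m = l then -1 else 0)) (by
    intro m
    by_cases hmi : m = i
    · subst hmi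
      rw [hKi, if_pos rfl, if_neg hij, if_neg (Ne.symm hli)]
      ring
    · by_cases hmj : m = j
      · subst hmj
        rw [hKj, if_pos rfl, if_neg hmi, if_neg (Ne.symm hlj)]
        ring
      · by_cases hml : m = l
        · subst hml
          rw [hKl, if_neg hmi, if_neg hmj, if_pos rfl]
          norm_num
        · rw [hK m hmi hmj hml, if_neg hmi, if_neg hmj, if_neg hml]
          norm_num)
  rw [Finset.sum_add_distrib, Finset.sum_add_distrib, Finset.sum_ite_eq' univ i,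
    Finset.sum_ite_eq' univ j, Finset.sum_ite_eq' univ l,
    if_pos (mem_univ _), if_pos (mem_univ _), if_pos (mem_univ _)] at h1
  have hgi : (if y ∈ X then (-1 : ℤ) else 0) = 0 ∧ (if x ∈ X then (-1 : ℤ) else 0) = 0 ∧
      (B.card : ℤ) - al = 0 := by
    have e1 : (if y ∈ X then (-1 : ℤ) else 0) = -1 ∨ (if y ∈ X then (-1 : ℤ) else 0) = 0 := by
      by_cases hy : y ∈ X
      · left; rw [if_pos hy]
      · right; rw [if_neg hy]
    have e2 : (if x ∈ X then (-1 : ℤ) else 0) = -1 ∨ (if x ∈ X then (-1 : ℤ) else 0) = 0 := by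
      by_cases hx : x ∈ X
      · left; rw [if_pos hx]
      · right; rw [if_neg hx]
    push_cast at h1
    rcases e1 with e1 | e1 <;> rcases e2 with e2 | e2 <;> rw [e1, e2] at h1 <;>
      refine ⟨?_, ?_, ?_⟩ <;> first | exact e1 | exact e2 | omega
  obtain ⟨g1, g2, g3⟩ := hgi
  intro v hvi hvj
  have h3 := h2 v
  rw [g1, g2, g3] at h3
  simp only [ite_self, add_zero, zero_add] at h3
  rw [Finset.sum_ite_eq', if_pos ((hB v).2 (Or.inl ⟨hvi, hvj⟩))] at h3
  by_contra hv
  rw [if_neg (by simpa using hv)] at h3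
  norm_num at h3

end Pool.Agent.H71T
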