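import Pool.Agent.Lib.H79S.Loc

/-!
# H71T: the hexagon at a clique and the no-rotation rule (clique number 3)

For a clique `K t = {a, b, c}` the two other cliques at `a` are `ab` (with `c ∈ S ab`) and `ac`
(with `b ∈ S ac`), and similarly at `b` and `c`. No vertex lies in `S ab ∩ S bc ∩ S ca` or in
`S ac ∩ S cb ∩ S ba`.
-/

set_option autoImplicit false

namespace Pool.Agent.H71T

open Finset Pool.Agent.H79S

variable {V ι : Type} [Fintype V] [DecidableEq V] [Fintype ι] [DecidableEq ι] {al : ℕ}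

theorem card_one_of {K B : Finset V} {x : V} (h1 : x ∈ K) (h2 : x ∈ B)
    (h3 : ∀ z ∈ K, z ∈ B → z = x) : (K ∩ B).card = 1 := by
  rw [Finset.card_eq_one]
  refine ⟨x, ?_⟩
  ext z
  rw [Finset.mem_inter, Finset.mem_singleton]
  constructor
  · rintro ⟨h4, h5⟩
    exact h3 z h4 h5
  · rintro rfl
    exact ⟨h1, h2⟩

theorem card_zero_of {K B : Finset V} (h3 : ∀ z ∈ K, z ∉ B) : (K ∩ B).card = 0 := by
  rw [Finset.card_eq_zero]
  apply Finset.eq_empty_of_forall_notMem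
  intro z hz
  rw [Finset.mem_inter] at hz
  exact h3 z hz.1 hz.2

/-- three different cliques at a vertex are all its cliques -/
theorem lines3 (P : PSys V ι al 3) {v : V} {i j l : ι} (hij : i ≠ j) (hil : i ≠ l) (hjl : j ≠ l)
    (hi : v ∈ P.K i) (hj : v ∈ P.K j) (hl : v ∈ P.K l) :
    ∀ m, v ∈ P.K m → m = i ∨ m = j ∨ m = l := by
  obtain ⟨l', _, _, _, hall⟩ := P.at3'' hij hi hj
  rcases hall l hl with h | h | h
  · exact absurd h.symm hil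
  · exact absurd h.symm hjl
  · rw [h]; exact hall

/-- three different vertices of a clique are all its vertices -/
theorem verts3 (P : PSys V ι al 3) {m : ι} {x y z : V} (hxy : x ≠ y) (hxz : x ≠ z) (hyz : y ≠ z)
    (hx : x ∈ P.K m) (hy : y ∈ P.K m) (hz : z ∈ P.K m) :
    ∀ u, u ∈ P.K m → u = x ∨ u = y ∨ u = z := by
  have hK : ({x, y, z} : Finset V) = P.K m := by
    apply Finset.eq_of_subset_of_card_le
    · intro u hu
      simp only [Finset.mem_insert, Finset.mem_singleton] at hu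
      rcases hu with rfl | rfl | rfl
      · exact hx
      · exact hy
      · exact hz
    · rw [P.cardK, Finset.card_insert_of_notMem (by simp [hxy, hxz]),
        Finset.card_insert_of_notMem (by simp [hyz]), Finset.card_singleton]
  intro u hu
  rw [← hK] at hu
  simpa using hu

/-- The six cliques meeting the clique `K t = {a, b, c}`. -/
structure Hex (P : PSys V ι al 3) where
  (a b c : V)
  (t ab ac ba bc ca cb : ι)
  hab : a ≠ b
  hac : a ≠ c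
  hbc : b ≠ c
  ta : a ∈ P.K t
  tb : b ∈ P.K t
  tc : c ∈ P.K t
  kab : a ∈ P.K ab
  kac : a ∈ P.K ac
  kba : b ∈ P.K ba
  kbc : b ∈ P.K bc
  kca : c ∈ P.K ca
  kcb : c ∈ P.K cb
  sab : c ∈ P.S ab
  sac : b ∈ P.S ac
  sba : c ∈ P.S ba
  sbc : a ∈ P.S bc
  sca : b ∈ P.S ca
  scb : a ∈ P.S cb

namespace Hex

variable {P : PSys V ι al 3} (H : Hex P)

/-- exchange `b` and `c` -/
def refl : Hex P where
  a := H.a
  b := H.c
  c := H.b
  t := H.t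
  ab := H.ac
  ac := H.ab
  ba := H.ca
  bc := H.cb
  ca := H.ba
  cb := H.bc
  hab := H.hac
  hac := H.hab
  hbc := H.hbc.symm
  ta := H.ta
  tb := H.tc
  tc := H.tb
  kab := H.kac
  kac := H.kab
  kba := H.kca
  kbc := H.kcb
  kca := H.kba
  kcb := H.kbc
  sab := H.sac
  sac := H.sab
  sba := H.sca
  sbc := H.scb
  sca := H.sba
  scb := H.sbc

theorem t_ab : H.t ≠ H.ab := fun h => P.notS H.tc (h ▸ H.sab)
theorem t_ac : H.t ≠ H.ac := fun h => P.notS H.tb (h ▸ H.sac)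
theorem t_ba : H.t ≠ H.ba := fun h => P.notS H.tc (h ▸ H.sba)
theorem t_bc : H.t ≠ H.bc := fun h => P.notS H.ta (h ▸ H.sbc)
theorem t_ca : H.t ≠ H.ca := fun h => P.notS H.tb (h ▸ H.sca)
theorem t_cb : H.t ≠ H.cb := fun h => P.notS H.ta (h ▸ H.scb)

theorem b_ab : H.b ∉ P.S H.ab := fun h => H.hbc (P.eqv H.tb h H.tc H.sab)
theorem c_ac : H.c ∉ P.S H.ac := fun h => H.hbc (P.eqv H.tb H.sac H.tc h)
theorem a_ba : H.a ∉ P.S H.ba := fun h => H.hac (P.eqv H.ta h H.tc H.sba)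
theorem c_bc : H.c ∉ P.S H.bc := fun h => H.hac (P.eqv H.ta H.sbc H.tc h)
theorem a_ca : H.a ∉ P.S H.ca := fun h => H.hab (P.eqv H.ta h H.tb H.sca)
theorem b_cb : H.b ∉ P.S H.cb := fun h => H.hab (P.eqv H.ta H.scb H.tb h)

theorem ab_ac : H.ab ≠ H.ac := fun h => H.b_ab (h ▸ H.sac)
theorem ba_bc : H.ba ≠ H.bc := fun h => H.a_ba (h ▸ H.sbc)
theorem ca_cb : H.ca ≠ H.cb := fun h => H.a_ca (h ▸ H.scb)
theorem ab_ca : H.ab ≠ H.ca := fun h => P.notS H.kca (h ▸ H.sab)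
theorem ba_ca : H.ba ≠ H.ca := fun h => P.notS H.kba (h ▸ H.sca)
theorem ab_cb : H.ab ≠ H.cb := fun h => P.notS H.kab (h ▸ H.scb)

/-- the partition of the vertices without `a` -/
theorem pa {x : V} (hx : x ≠ H.a) : x ∈ P.S H.t ∨ x ∈ P.S H.ab ∨ x ∈ P.S H.ac := by
  obtain ⟨m, hm1, hm2⟩ := P.exKS (u := H.a) (v := x) (Ne.symm hx)
  rcases lines3 P H.t_ab H.t_ac H.ab_ac H.ta H.kab H.kac m hm1 with rfl | rfl | rfl
  · exact Or.inl hm2
  · exact Or.inr (Or.inl hm2)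
  · exact Or.inr (Or.inr hm2)

theorem pb {x : V} (hx : x ≠ H.b) : x ∈ P.S H.t ∨ x ∈ P.S H.ba ∨ x ∈ P.S H.bc := by
  obtain ⟨m, hm1, hm2⟩ := P.exKS (u := H.b) (v := x) (Ne.symm hx)
  rcases lines3 P H.t_ba H.t_bc H.ba_bc H.tb H.kba H.kbc m hm1 with rfl | rfl | rfl
  · exact Or.inl hm2
  · exact Or.inr (Or.inl hm2)
  · exact Or.inr (Or.inr hm2)

theorem pc {x : V} (hx : x ≠ H.c) : x ∈ P.S H.t ∨ x ∈ P.S H.ca ∨ x ∈ P.S H.cb := by
  obtain ⟨m, hm1, hm2⟩ := P.exKS (u := H.c) (v := x) (Ne.symm hx)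
  rcases lines3 P H.t_ca H.t_cb H.ca_cb H.tc H.kca H.kcb m hm1 with rfl | rfl | rfl
  · exact Or.inl hm2
  · exact Or.inr (Or.inl hm2)
  · exact Or.inr (Or.inr hm2)

theorem d_t_ab {x : V} (h1 : x ∈ P.S H.t) (h2 : x ∈ P.S H.ab) : False :=
  H.t_ab (P.eqi H.ta h1 H.kab h2)
theorem d_t_ac {x : V} (h1 : x ∈ P.S H.t) (h2 : x ∈ P.S H.ac) : False :=
  H.t_ac (P.eqi H.ta h1 H.kac h2)
theorem d_ab_ac {x : V} (h1 : x ∈ P.S H.ab) (h2 : x ∈ P.S H.ac) : False :=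
  H.ab_ac (P.eqi H.kab h1 H.kac h2)
theorem d_t_ba {x : V} (h1 : x ∈ P.S H.t) (h2 : x ∈ P.S H.ba) : False :=
  H.t_ba (P.eqi H.tb h1 H.kba h2)
theorem d_t_bc {x : V} (h1 : x ∈ P.S H.t) (h2 : x ∈ P.S H.bc) : False :=
  H.t_bc (P.eqi H.tb h1 H.kbc h2)
theorem d_ba_bc {x : V} (h1 : x ∈ P.S H.ba) (h2 : x ∈ P.S H.bc) : False :=
  H.ba_bc (P.eqi H.kba h1 H.kbc h2)
theorem d_t_ca {x : V} (h1 : x ∈ P.S H.t) (h2 : x ∈ P.S H.ca) : False :=
  H.t_ca (P.eqi H.tc h1 H.kca h2)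
theorem d_t_cb {x : V} (h1 : x ∈ P.S H.t) (h2 : x ∈ P.S H.cb) : False :=
  H.t_cb (P.eqi H.tc h1 H.kcb h2)
theorem d_ca_cb {x : V} (h1 : x ∈ P.S H.ca) (h2 : x ∈ P.S H.cb) : False :=
  H.ca_cb (P.eqi H.kca h1 H.kcb h2)

/-- a clique meeting the first rotation set meets the second one -/
theorem rr {x : V} {m : ι} (h1 : x ∈ P.S H.ab) (h2 : x ∈ P.S H.bc) (h3 : x ∈ P.S H.ca)
    (hm : x ∈ P.K m) : ∃ y, y ∈ P.K m ∧ y ∈ P.S H.ac ∧ y ∈ P.S H.cb ∧ y ∈ P.S H.ba := by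
  have ha : H.a ∉ P.K m := fun h => P.notS H.kab ((P.eqv h H.sbc hm h2) ▸ h1)
  have hb : H.b ∉ P.K m := fun h => P.notS H.kbc ((P.eqv h H.sca hm h3) ▸ h2)
  have hc : H.c ∉ P.K m := fun h => P.notS H.kca ((P.eqv h H.sab hm h1) ▸ h3)
  have hmac : m ≠ H.ac := fun h => ha (h ▸ H.kac)
  obtain ⟨y, hy1, hy2⟩ := P.meet hmac
  have hyb : y ≠ H.b := fun h => hb (h ▸ hy1)
  have hyc : y ≠ H.c := fun h => hc (h ▸ hy1)
  refine ⟨y, hy1, hy2, ?_, ?_⟩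
  · rcases H.pc hyc with h | h | h
    · exact absurd hy2 (fun h' => H.d_t_ac h h')
    · exact absurd ((P.eqv hy1 h hm h3) ▸ hy2) (fun h' => H.d_ab_ac h1 h')
    · exact h
  · rcases H.pb hyb with h | h | h
    · exact absurd hy2 (fun h' => H.d_t_ac h h')
    · exact h
    · exact absurd ((P.eqv hy1 h hm h2) ▸ hy2) (fun h' => H.d_ab_ac h1 h')

/-- **No rotation.** -/
theorem norot (x : V) : ¬ (x ∈ P.S H.ab ∧ x ∈ P.S H.bc ∧ x ∈ P.S H.ca) ∧
    ¬ (x ∈ P.S H.ac ∧ x ∈ P.S H.cb ∧ x ∈ P.S H.ba) := by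
  classical
  obtain ⟨B, hB⟩ : ∃ B : Finset V, ∀ z, z ∈ B ↔
      (z ∈ P.S H.ab ∧ ¬ (z ∈ P.S H.bc ∧ z ∈ P.S H.ca)) ∨
      (z ∈ P.S H.ac ∧ z ∈ P.S H.cb ∧ z ∈ P.S H.ba) :=
    ⟨univ.filter (fun z => (z ∈ P.S H.ab ∧ ¬ (z ∈ P.S H.bc ∧ z ∈ P.S H.ca)) ∨
      (z ∈ P.S H.ac ∧ z ∈ P.S H.cb ∧ z ∈ P.S H.ba)), fun z => by simp⟩
  have hcount : ∀ m, ((P.K m ∩ B).card : ℤ) = 1 + (if m = H.ab then -1 else 0) := by
    intro m
    by_cases hm : m = H.ab
    · rw [if_pos hm, card_zero_of]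
      · norm_num
      · intro z hz hzB
        rw [hm] at hz
        rcases (hB z).1 hzB with h | h
        · exact P.notS hz h.1
        · exact P.notS H.kac ((P.eqv H.kab H.scb hz h.2.1) ▸ h.1)
    · rw [if_neg hm]
      obtain ⟨x, hx1, hx2⟩ := P.meet hm
      by_cases hR : x ∈ P.S H.bc ∧ x ∈ P.S H.ca
      · obtain ⟨y, hy1, hy2, hy3, hy4⟩ := H.rr hx2 hR.1 hR.2 hx1
        rw [card_one_of hy1 ((hB y).2 (Or.inr ⟨hy2, hy3, hy4⟩))]
        · norm_num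
        · intro z hz hzB
          rcases (hB z).1 hzB with h | h
          · rw [P.eqv hz h.1 hx1 hx2] at h
            exact absurd hR h.2
          · exact P.eqv hz h.1 hy1 hy2
      · rw [card_one_of hx1 ((hB x).2 (Or.inl ⟨hx2, hR⟩))]
        · norm_num
        · intro z hz hzB
          rcases (hB z).1 hzB with h | h
          · exact P.eqv hz h.1 hx1 hx2
          · obtain ⟨y, hy1, hy2, hy3, hy4⟩ := H.refl.rr h.1 h.2.1 h.2.2 hz
            have e := P.eqv hy1 hy2 hx1 hx2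
            exact absurd ⟨e ▸ hy3, e ▸ hy4⟩ hR
  obtain ⟨h1, h2⟩ := P.recon B _ hcount
  rw [Finset.sum_ite_eq' univ H.ab, if_pos (mem_univ _)] at h1
  have hcard : (B.card : ℤ) - al = 0 := by push_cast at h1; omega
  have h3 : ∀ v, v ∈ B ↔ v ∈ P.S H.ab := by
    intro v
    have h4 := h2 v
    rw [Finset.sum_ite_eq', hcard] at h4
    simp only [Finset.mem_filter, Finset.mem_univ, true_and] at h4
    by_cases hv : v ∈ P.S H.ab
    · rw [if_pos hv] at h4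
      refine ⟨fun _ => hv, fun _ => ?_⟩
      by_contra h5
      rw [if_neg h5] at h4
      norm_num at h4
    · rw [if_neg hv] at h4
      refine ⟨fun h5 => ?_, fun h5 => absurd h5 hv⟩
      rw [if_pos h5] at h4
      norm_num at h4
  constructor
  · rintro ⟨e1, e2, e3⟩
    rcases (hB x).1 ((h3 x).2 e1) with h | h
    · exact h.2 ⟨e2, e3⟩
    · exact H.d_ab_ac e1 h.1
  · rintro ⟨e1, e2, e3⟩
    have e4 := (h3 x).1 ((hB x).2 (Or.inr ⟨e1, e2, e3⟩))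
    exact H.d_ab_ac e4 e1

end Hex

end Pool.Agent.H71T
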