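import Pool.Agent.Lib.H71T.Tr
import Pool.Agent.Lib.H71T.Br

/-!
# H71T: a clique with two unshared edges gives a small transversal (clique number 3)
-/

set_option autoImplicit false

namespace Pool.Agent.H71T

open Finset Pool.Agent.H79S

variable {V ι : Type} [Fintype V] [DecidableEq V] [Fintype ι] [DecidableEq ι] {al : ℕ}

namespace Hex

variable {P : PSys V ι al 3} (H : Hex P)

theorem btw1 {x : V} (h1 : x ∈ P.S H.ab) (h2 : x ∈ P.S H.ca) : x ∈ P.S H.ba := by
  have hb : x ≠ H.b := fun h => H.b_ab (h ▸ h1)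
  rcases H.pb hb with h | h | h
  · exact (H.d_t_ab h h1).elim
  · exact h
  · exact ((H.norot x).1 ⟨h1, h, h2⟩).elim

theorem btw2 {x : V} (h : x ∈ P.S H.ba) : x ∈ P.S H.ab ∨ x ∈ P.S H.ca := by
  have ha : x ≠ H.a := fun e => H.a_ba (e ▸ h)
  rcases H.pa ha with h1 | h1 | h1
  · exact (H.d_t_ba h1 h).elim
  · exact Or.inl h1
  · have hc : x ≠ H.c := fun e => H.c_ac (e ▸ h1)
    rcases H.pc hc with h2 | h2 | h2
    · exact (H.d_t_ba h2 h).elim
    · exact Or.inr h2
    · exact ((H.norot x).2 ⟨h1, h2, h⟩).elim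

/-- the set `F_ab + F_ca - F_ba` -/
def B : Finset V := ((P.S H.ab ∪ P.S H.ca) \ P.S H.ba) ∪ (P.S H.ab ∩ P.S H.ca)

theorem memB (x : V) : x ∈ H.B ↔ ((x ∈ P.S H.ab ∨ x ∈ P.S H.ca) ∧ x ∉ P.S H.ba) ∨
    (x ∈ P.S H.ab ∧ x ∈ P.S H.ca) := by
  simp [B]

theorem cardB : H.B.card = al := by
  unfold B
  rw [Finset.card_union_of_disjoint]
  · have h1 : P.S H.ba ⊆ P.S H.ab ∪ P.S H.ca := fun x hx => by
      rw [Finset.mem_union]; exact H.btw2 hx
    rw [Finset.card_sdiff_of_subset h1]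
    have h2 := Finset.card_union_add_card_inter (P.S H.ab) (P.S H.ca)
    have h3 := Finset.card_le_card h1
    rw [P.cardS, P.cardS] at h2
    rw [P.cardS] at h3 ⊢
    omega
  · rw [Finset.disjoint_left]
    intro x hx hx'
    rw [Finset.mem_sdiff] at hx
    rw [Finset.mem_inter] at hx'
    exact hx.2 (H.btw1 hx'.1 hx'.2)

/-- `B` meets every clique except `ab` and `ca` -/
theorem B_meets {m : ι} (h1 : m ≠ H.ab) (h2 : m ≠ H.ca) : ∃ x, x ∈ P.K m ∧ x ∈ H.B := by
  obtain ⟨x, hx1, hx2⟩ := P.meet h1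
  obtain ⟨z, hz1, hz2⟩ := P.meet h2
  by_cases hx : x ∈ P.S H.ba
  · by_cases hz : z ∈ P.S H.ba
    · have e := P.eqv hx1 hx hz1 hz
      exact ⟨x, hx1, (H.memB x).2 (Or.inr ⟨hx2, e ▸ hz2⟩)⟩
    · exact ⟨z, hz1, (H.memB z).2 (Or.inl ⟨Or.inr hz2, hz⟩)⟩
  · exact ⟨x, hx1, (H.memB x).2 (Or.inl ⟨Or.inl hx2, hx⟩)⟩

theorem a_B : H.a ∉ H.B := by
  rw [H.memB]
  rintro (⟨h | h, -⟩ | h)
  · exact P.notS H.kab h
  · exact H.a_ca h
  · exact P.notS H.kab h.1

theorem b_B : H.b ∈ H.B := (H.memB _).2 (Or.inl ⟨Or.inr H.sca, P.notS H.kba⟩)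

theorem c_B : H.c ∉ H.B := by
  rw [H.memB]
  rintro (⟨-, h⟩ | h)
  · exact h H.sba
  · exact P.notS H.kca h.2

theorem t_B {x : V} (hx : x ∈ P.S H.t) : x ∉ H.B := by
  rw [H.memB]
  rintro (⟨h | h, -⟩ | h)
  · exact H.d_t_ab hx h
  · exact H.d_t_ca hx h
  · exact H.d_t_ab hx h.1

end Hex

/-- **Main lemma**: two unshared edges `ab`, `ac` of a clique. -/
theorem st_of_hex {P : PSys V ι al 3} (H : Hex P) (hal : 3 ≤ al) (n1 : H.ab ≠ H.ba)
    (n2 : H.ac ≠ H.ca) : ∃ T, P.IsST T := by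
  classical
  -- the special vertices
  obtain ⟨w1, w1k, w1s⟩ := P.meet (Ne.symm H.t_ab)
  obtain ⟨w2, w2k, w2s⟩ := P.meet (Ne.symm H.t_ca)
  obtain ⟨w3, w3k, w3s⟩ := P.meet (Ne.symm H.t_cb)
  obtain ⟨w4, w4k, w4s⟩ := P.meet (Ne.symm H.t_ba)
  obtain ⟨w6, w6k, w6s⟩ := P.meet (Ne.symm H.t_ac)
  obtain ⟨p, pk, ps⟩ := P.meet H.ab_ac
  obtain ⟨r', r'k, r's⟩ := P.meet (Ne.symm H.ab_ac)
  obtain ⟨p', p'k, p's⟩ := P.meet (Ne.symm n1)
  -- the vertex r' of K ac
  have hcac : H.c ∉ P.K H.ac := by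
    intro h
    rcases lines3 P H.t_ca H.t_cb H.ca_cb H.tc H.kca H.kcb H.ac h with e | e | e
    · exact H.t_ac e.symm
    · exact n2 e
    · exact P.notS H.kac (e ▸ H.scb)
  have r'c : r' ≠ H.c := fun h => hcac (h ▸ r'k)
  have r'a : r' ≠ H.a := fun h => P.notS H.kab (h ▸ r's)
  have r'ca : r' ∈ P.S H.ca := by
    rcases H.pc r'c with h | h | h
    · exact (H.d_t_ab h r's).elim
    · exact h
    · exact (r'a (P.eqv r'k h H.kac H.scb)).elim
  have r'B : r' ∈ H.B := (H.memB _).2 (Or.inr ⟨r's, r'ca⟩)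
  have r'ba : r' ∈ P.S H.ba := H.btw1 r's r'ca
  -- the vertex p' of K ba
  have p'nba : p' ∉ P.S H.ba := P.notS p'k
  have p'B : p' ∈ H.B := (H.memB _).2 (Or.inl ⟨Or.inl p's, p'nba⟩)
  have p'c : p' ≠ H.c := fun h => P.notS p'k (h ▸ H.sba)
  have p'cb : p' ∈ P.S H.cb := by
    rcases H.pc p'c with h | h | h
    · exact (H.d_t_ab h p's).elim
    · exact (p'nba (H.btw1 p's h)).elim
    · exact h
  -- w1 and w2 are different
  have w12 : w1 ≠ w2 := by
    rintro rfl
    exact H.ab_ca (P.eqi w1k r's w2k r'ca)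
  -- general facts on a mate disjoint from B
  have gen : ∀ m, (∀ x, x ∈ H.B → x ∉ P.S m) →
      m ≠ H.ab ∧ m ≠ H.ba ∧ m ≠ H.ac ∧ m ≠ H.ca ∧ m ≠ H.cb ∧ w4 ∈ P.S m := by
    intro m hm
    have e2 : m ≠ H.ba := fun h => hm _ r'B (h ▸ r'ba)
    refine ⟨fun h => hm _ r'B (h ▸ r's), e2, fun h => hm _ H.b_B (h ▸ H.sac),
      fun h => hm _ H.b_B (h ▸ H.sca), fun h => hm _ p'B (h ▸ p'cb), ?_⟩
    obtain ⟨x, hx1, hx2⟩ := P.meet (Ne.symm e2)
    have bp' : H.b ≠ p' := fun h => H.b_ab (h ▸ p's)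
    have bw4 : H.b ≠ w4 := fun h => P.notS H.tb (h ▸ w4s)
    have p'w4 : p' ≠ w4 := fun h => H.d_t_ab (h ▸ w4s) p's
    rcases verts3 P bp' bw4 p'w4 H.kba p'k w4k x hx1 with h | h | h
    · exact (hm _ H.b_B (h ▸ hx2)).elim
    · exact (hm _ p'B (h ▸ hx2)).elim
    · exact h ▸ hx2
  -- a mate disjoint from B through c contains w1
  have key : ∀ m, (∀ x, x ∈ H.B → x ∉ P.S m) → H.c ∈ P.S m → w1 ∈ P.S m := by
    intro m hm hc
    obtain ⟨m1, -, m3, -, -, -⟩ := gen m hm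
    have ha : H.a ∉ P.S m := fun h => H.hac (P.eqv H.ta h H.tc hc)
    -- w6
    have aw6 : H.a ≠ w6 := fun h => P.notS H.ta (h ▸ w6s)
    have r'w6 : r' ≠ w6 := fun h => H.d_t_ab (h ▸ w6s) r's
    obtain ⟨x, hx1, hx2⟩ := P.meet (Ne.symm m3)
    have e6 : w6 ∈ P.S m := by
      rcases verts3 P r'a.symm aw6 r'w6 H.kac r'k w6k x hx1 with h | h | h
      · exact (ha (h ▸ hx2)).elim
      · exact (hm _ r'B (h ▸ hx2)).elim
      · exact h ▸ hx2
    -- p
    have ap : H.a ≠ p := fun h => P.notS H.kac (h ▸ ps)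
    have aw1 : H.a ≠ w1 := fun h => P.notS H.ta (h ▸ w1s)
    have pw1 : p ≠ w1 := fun h => H.d_t_ac (h ▸ w1s) ps
    obtain ⟨y, hy1, hy2⟩ := P.meet (Ne.symm m1)
    rcases verts3 P ap aw1 pw1 H.kab pk w1k y hy1 with h | h | h
    · exact (ha (h ▸ hy2)).elim
    · exact (norot_vertex P H.t_ab H.t_ac H.ab_ac H.ta H.kab H.kac m H.tc H.sab pk ps w6k w6s hc
        (h ▸ hy2) e6).elim
    · exact h ▸ hy2
  by_contra hno
  push Not at hno
  have aw2 : H.a ≠ w2 := fun h => P.notS H.ta (h ▸ w2s)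
  have hT1 : ¬ P.IsST (insert H.a (insert w2 H.B)) := hno _
  have hT2 : ¬ P.IsST (insert w1 (insert w2 H.B)) := hno _
  have c1 : (insert H.a (insert w2 H.B)).card = al + 3 - 1 := by
    rw [Finset.card_insert_of_notMem, Finset.card_insert_of_notMem, H.cardB]
    · omega
    · exact H.t_B w2s
    · rw [Finset.mem_insert, not_or]
      exact ⟨aw2, H.a_B⟩
  have c2 : (insert w1 (insert w2 H.B)).card = al + 3 - 1 := by
    rw [Finset.card_insert_of_notMem, Finset.card_insert_of_notMem, H.cardB]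
    · omega
    · exact H.t_B w2s
    · rw [Finset.mem_insert, not_or]
      exact ⟨w12, H.t_B w1s⟩
  have hit : ∀ u, u ∈ P.K H.ab → ∀ i, ¬ Disjoint (insert u (insert w2 H.B)) (P.K i) := by
    intro u hu i hd
    rw [Finset.disjoint_left] at hd
    by_cases e1 : i = H.ab
    · exact hd (by simp) (e1 ▸ hu)
    · by_cases e2 : i = H.ca
      · exact hd (a := w2) (by simp) (e2 ▸ w2k)
      · obtain ⟨x, hx1, hx2⟩ := H.B_meets e1 e2
        exact hd (by simp [hx2]) hx1
  obtain ⟨m, hm⟩ : ∃ m, Disjoint (insert H.a (insert w2 H.B)) (P.S m) := by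
    by_contra h
    push Not at h
    exact hT1 ⟨c1, hit _ H.kab, h⟩
  obtain ⟨m', hm'⟩ : ∃ m, Disjoint (insert w1 (insert w2 H.B)) (P.S m) := by
    by_contra h
    push Not at h
    exact hT2 ⟨c2, hit _ w1k, h⟩
  rw [Finset.disjoint_left] at hm hm'
  have mB : ∀ x, x ∈ H.B → x ∉ P.S m := fun x hx => hm (by simp [hx])
  have m'B : ∀ x, x ∈ H.B → x ∉ P.S m' := fun x hx => hm' (by simp [hx])
  have ma : H.a ∉ P.S m := hm (by simp)
  have mw2 : w2 ∉ P.S m := hm (by simp)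
  have m'w1 : w1 ∉ P.S m' := hm' (by simp)
  have m'w2 : w2 ∉ P.S m' := hm' (by simp)
  -- S m contains c
  have mt : H.t ≠ m := fun h => mw2 (h ▸ w2s)
  have mc : H.c ∈ P.S m := by
    obtain ⟨x, hx1, hx2⟩ := P.meet mt
    rcases verts3 P H.hab H.hac H.hbc H.ta H.tb H.tc x hx1 with h | h | h
    · exact (ma (h ▸ hx2)).elim
    · exact (mB _ H.b_B (h ▸ hx2)).elim
    · exact h ▸ hx2
  have mw1 : w1 ∈ P.S m := key m mB mc
  obtain ⟨g1, g2, g3, g4, g5, mw4⟩ := gen m mB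
  obtain ⟨g1', g2', g3', g4', g5', m'w4⟩ := gen m' m'B
  -- S m' contains a
  have m't : H.t ≠ m' := fun h => m'w2 (h ▸ w2s)
  have m'c : H.c ∉ P.S m' := fun h => m'w1 (key m' m'B h)
  have m'a : H.a ∈ P.S m' := by
    obtain ⟨x, hx1, hx2⟩ := P.meet m't
    rcases verts3 P H.hab H.hac H.hbc H.ta H.tb H.tc x hx1 with h | h | h
    · exact h ▸ hx2
    · exact (m'B _ H.b_B (h ▸ hx2)).elim
    · exact (m'c (h ▸ hx2)).elim
  -- S m' contains w3
  have cw3 : H.c ≠ w3 := fun h => P.notS H.tc (h ▸ w3s)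
  have m'w3 : w3 ∈ P.S m' := by
    obtain ⟨x, hx1, hx2⟩ := P.meet (Ne.symm g5')
    by_contra hw3
    have xw3 : w3 ≠ x := fun h => hw3 (h ▸ hx2)
    have xc : H.c ≠ x := fun h => m'c (h ▸ hx2)
    obtain ⟨u, hu1, hu2⟩ := H.B_meets (Ne.symm H.ab_cb) (Ne.symm H.ca_cb)
    rcases verts3 P cw3 xc xw3 H.kcb w3k hx1 u hu1 with h | h | h
    · exact H.c_B (h ▸ hu2)
    · exact H.t_B w3s (h ▸ hu2)
    · exact m'B _ (h ▸ hu2) hx2
  have hne : m ≠ m' := fun h => m'c (h ▸ mc)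
  -- the bridge lemma
  have hbr := bridge P hne (Ne.symm g5) (Ne.symm g5') (insert H.c (P.S H.t)) (l := H.cb)
    (p := H.c) (q := w3) (by
    intro n x y nm nm' ncb hx1 hx2 hy1 hy2
    by_cases hxy : x = y
    · exact Or.inl hxy
    · right
      -- the vertex of K n in S t
      have hX : ∀ u, u ∈ insert H.c (P.S H.t) ↔ u = H.c ∨ u ∈ P.S H.t := fun u => by simp
      rw [hX, hX]
      by_cases e1 : n = H.t
      · subst e1
        have e2 : x = H.c := P.eqv hx1 hx2 H.tc mc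
        have e3 : y = H.a := P.eqv hy1 hy2 H.ta m'a
        subst e2 e3
        left
        refine ⟨Or.inl rfl, ?_⟩
        rintro (h | h)
        · exact H.hac h
        · exact P.notS H.ta h
      · by_cases e4 : n = H.ab
        · subst e4
          have e2 : x = w1 := P.eqv hx1 hx2 w1k mw1
          have e3 : y = H.a := P.eqv hy1 hy2 H.kab m'a
          subst e2 e3
          left
          refine ⟨Or.inr w1s, ?_⟩
          rintro (h | h)
          · exact H.hac h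
          · exact P.notS H.ta h
        · by_cases e5 : n = H.ca
          · subst e5
            have e2 : x = H.c := P.eqv hx1 hx2 H.kca mc
            subst e2
            left
            refine ⟨Or.inl rfl, ?_⟩
            rintro (h | h)
            · exact hxy h.symm
            · exact m'w2 ((P.eqv hy1 h w2k w2s) ▸ hy2)
          · -- general clique
            have hcn : H.c ∉ P.K n := by
              intro h
              rcases lines3 P H.t_ca H.t_cb H.ca_cb H.tc H.kca H.kcb n h with e | e | e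
              · exact e1 e
              · exact e5 e
              · exact ncb e
            have xc : x ≠ H.c := fun h => hcn (h ▸ hx1)
            have yc : y ≠ H.c := fun h => hcn (h ▸ hy1)
            obtain ⟨z, hz1, hz2⟩ := P.meet e1
            by_cases xz : x = z
            · left
              refine ⟨Or.inr (xz ▸ hz2), ?_⟩
              rintro (h | h)
              · exact yc h
              · exact hxy (xz.trans (P.eqv hz1 hz2 hy1 h))
            · by_cases yz : y = z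
              · right
                refine ⟨?_, Or.inr (yz ▸ hz2)⟩
                rintro (h | h)
                · exact xc h
                · exact xz (P.eqv hx1 h hz1 hz2)
              · exfalso
                obtain ⟨u, hu1, hu2⟩ := H.B_meets e4 e5
                rcases verts3 P hxy xz yz hx1 hy1 hz1 u hu1 with h | h | h
                · exact mB _ (h ▸ hu2) hx2
                · exact m'B _ (h ▸ hu2) hy2
                · exact H.t_B hz2 (h ▸ hu2))
    H.kcb mc w3k m'w3 cw3 (by simp) (by simp [w3s]) w4 mw4 m'w4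
  exact H.t_cb (P.eqi H.tc w4s H.kcb hbr)

/-- **Theorem.** A clique `K t = {a, b, c}` whose edges `ab` and `ac` are in no other clique gives a
small transversal. -/
theorem st_of_line (P : PSys V ι al 3) (hal : 3 ≤ al) {t : ι} {a b c : V}
    (ht : P.K t = {a, b, c}) (hab : a ≠ b) (hac : a ≠ c) (hbc : b ≠ c)
    (h1 : ∀ m, a ∈ P.K m → b ∈ P.K m → m = t) (h2 : ∀ m, a ∈ P.K m → c ∈ P.K m → m = t) :
    ∃ T, P.IsST T := by
  have ta : a ∈ P.K t := by rw [ht]; simp
  have tb : b ∈ P.K t := by rw [ht]; simp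
  have tc : c ∈ P.K t := by rw [ht]; simp
  obtain ⟨ab, kab, sab⟩ := P.exKS hac
  obtain ⟨ac, kac, sac⟩ := P.exKS hab
  obtain ⟨ba, kba, sba⟩ := P.exKS hbc
  obtain ⟨bc, kbc, sbc⟩ := P.exKS hab.symm
  obtain ⟨ca, kca, sca⟩ := P.exKS hbc.symm
  obtain ⟨cb, kcb, scb⟩ := P.exKS hac.symm
  let H : Hex P :=
    { a := a, b := b, c := c, t := t, ab := ab, ac := ac, ba := ba, bc := bc, ca := ca, cb := cb
      hab := hab, hac := hac, hbc := hbc, ta := ta, tb := tb, tc := tc, kab := kab, kac := kac,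
      kba := kba, kbc := kbc, kca := kca, kcb := kcb, sab := sab, sac := sac, sba := sba,
      sbc := sbc, sca := sca, scb := scb }
  refine st_of_hex H hal ?_ ?_
  · intro h
    have h4 : ab = ba := h
    have h3 : b ∈ P.K ab := by rw [h4]; exact kba
    have h5 := h1 ab kab h3
    exact P.notS tc (h5 ▸ sab)
  · intro h
    have h4 : ac = ca := h
    have h3 : c ∈ P.K ac := by rw [h4]; exact kca
    have h5 := h2 ac kac h3
    exact P.notS tb (h5 ▸ sac)

end Pool.Agent.H71T
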