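import Pool.Agent.Lib.H71T.Hex

/-!
# H71T: the transposed system, and the no-rotation rule at a vertex
-/

set_option autoImplicit false

namespace Pool.Agent.H71T

open Finset Pool.Agent.H79S

variable {V ι : Type} [Fintype V] [DecidableEq V] [Fintype ι] [DecidableEq ι] {al : ℕ}

/-- exchange vertices and indices -/
def tr {a k : ℕ} (P : PSys V ι a k) : PSys ι V a k where
  K := fun v => univ.filter (fun i => v ∈ P.K i)
  S := fun v => univ.filter (fun i => v ∈ P.S i)
  cardK := P.degK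
  cardS := P.degS
  cardV := P.cardI
  cardI := P.cardV
  dis := fun v => by
    rw [Finset.disjoint_left]
    intro i hi hi'
    rw [Finset.mem_filter] at hi hi'
    exact P.notS hi.2 hi'.2
  one := fun u v huv => by
    obtain ⟨i, ⟨h1, h2⟩, h3⟩ := P.uniq u v huv
    rw [Finset.card_eq_one]
    refine ⟨i, ?_⟩
    ext j
    simp only [Finset.mem_inter, Finset.mem_filter, Finset.mem_univ, true_and,
      Finset.mem_singleton]
    exact ⟨fun h => h3 j h, fun h => h ▸ ⟨h1, h2⟩⟩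
  uniq := fun i j hij => by
    obtain ⟨x, h1, h2⟩ := P.meet hij
    refine ⟨x, ?_, ?_⟩
    · simp only [Finset.mem_filter, Finset.mem_univ, true_and]
      exact ⟨h1, h2⟩
    · intro y hy
      simp only [Finset.mem_filter, Finset.mem_univ, true_and] at hy
      exact P.eqv hy.1 hy.2 h1 h2
  degK := fun i => by
    have h : univ.filter (fun v => i ∈ univ.filter (fun j => v ∈ P.K j)) = P.K i := by
      ext v
      simp
    exact (congrArg Finset.card h).trans (P.cardK i)
  degS := fun i => by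
    have h : univ.filter (fun v => i ∈ univ.filter (fun j => v ∈ P.S j)) = P.S i := by
      ext v
      simp
    exact (congrArg Finset.card h).trans (P.cardS i)

theorem tr_K {a k : ℕ} (P : PSys V ι a k) (v : V) (i : ι) : i ∈ (tr P).K v ↔ v ∈ P.K i := by
  simp [tr]

theorem tr_S {a k : ℕ} (P : PSys V ι a k) (v : V) (i : ι) : i ∈ (tr P).S v ↔ v ∈ P.S i := by
  simp [tr]

/-- **No rotation at a vertex**: `l1, l2, l3` are the cliques at `v`; no mate `S m` meets `K l1` in
`S l2`, `K l2` in `S l3` and `K l3` in `S l1`. -/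
theorem norot_vertex (P : PSys V ι al 3) {v : V} {l1 l2 l3 : ι} (h12 : l1 ≠ l2) (h13 : l1 ≠ l3)
    (h23 : l2 ≠ l3) (k1 : v ∈ P.K l1) (k2 : v ∈ P.K l2) (k3 : v ∈ P.K l3) (m : ι) {x y z : V}
    (hx1 : x ∈ P.K l1) (hx2 : x ∈ P.S l2) (hy1 : y ∈ P.K l2) (hy2 : y ∈ P.S l3)
    (hz1 : z ∈ P.K l3) (hz2 : z ∈ P.S l1) (hx : x ∈ P.S m) (hy : y ∈ P.S m) (hz : z ∈ P.S m) :
    False := by
  obtain ⟨x', hx1', hx2'⟩ := P.meet h13
  obtain ⟨y', hy1', hy2'⟩ := P.meet h12.symm
  obtain ⟨z', hz1', hz2'⟩ := P.meet h23.symm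
  let H : Hex (tr P) :=
    { a := l1, b := l2, c := l3, t := v, ab := x', ac := x, ba := y, bc := y', ca := z', cb := z
      hab := h12, hac := h13, hbc := h23
      ta := (tr_K P v l1).2 k1, tb := (tr_K P v l2).2 k2, tc := (tr_K P v l3).2 k3
      kab := (tr_K P _ _).2 hx1', kac := (tr_K P _ _).2 hx1, kba := (tr_K P _ _).2 hy1,
      kbc := (tr_K P _ _).2 hy1', kca := (tr_K P _ _).2 hz1', kcb := (tr_K P _ _).2 hz1
      sab := (tr_S P _ _).2 hx2', sac := (tr_S P _ _).2 hx2, sba := (tr_S P _ _).2 hy2,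
      sbc := (tr_S P _ _).2 hy2', sca := (tr_S P _ _).2 hz2', scb := (tr_S P _ _).2 hz2 }
  exact (H.norot m).2 ⟨(tr_S P _ _).2 hx, (tr_S P _ _).2 hz, (tr_S P _ _).2 hy⟩

end Pool.Agent.H71T
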